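import Pool.Agent.X91.OS.Duh

/-!
# Decomposition of the oscillator kernel
-/

set_option autoImplicit false

open MeasureTheory Set Filter Topology

namespace Pool.Agent.X91.OS

/-- `k = e + r` with `|e| ≤ exp(-c s)` and `∫ |r| ≤ 1/c` -/
def Dec (c : ℝ) (k : ℝ → ℝ) : Prop :=
  ∃ e r : ℝ → ℝ, Continuous e ∧ Continuous r ∧ (∀ s, 0 ≤ s → k s = e s + r s) ∧
    (∀ s, 0 ≤ s → |e s| ≤ Real.exp (-(c * s))) ∧ ∀ T, 0 ≤ T → ∫ s in (0:ℝ)..T, |r s| ≤ 1 / c

lemma exp_hd (a : ℝ) (s : ℝ) : HasDerivAt (fun s : ℝ => Real.exp (a * s)) (a * Real.exp (a * s)) s := by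
  have := ((hasDerivAt_id s).const_mul a).exp
  simpa [mul_comm] using this

lemma Ker.env {c lam : ℝ} {g k : ℝ → ℝ} (K : Ker c lam g k) (hl : 0 ≤ lam) {b : ℝ}
    (hg : ∀ s, 0 ≤ s → s ≤ b → 0 ≤ g s) {s : ℝ} (h0 : 0 ≤ s) (hs : s ≤ b) : k s ≤ Real.exp (-(c * s)) := by
  set φ : ℝ → ℝ := fun s => k s * Real.exp (c * s) with hφ
  have hd : ∀ s, HasDerivAt φ (-(lam * g s) * Real.exp (c * s)) s := by
    intro s
    have := (K.hk s).mul (exp_hd c s)
    have e : (-(c * k s) - lam * g s) * Real.exp (c * s) + k s * (c * Real.exp (c * s)) =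
      -(lam * g s) * Real.exp (c * s) := by ring
    rw [e] at this
    exact this
  have hanti : AntitoneOn φ (Icc 0 b) := by
    apply antitoneOn_of_deriv_nonpos (convex_Icc 0 b)
    · exact fun x _ => (hd x).continuousAt.continuousWithinAt
    · exact fun x _ => (hd x).differentiableAt.differentiableWithinAt
    · intro x hx
      rw [interior_Icc] at hx
      rw [(hd x).deriv]
      have := hg x hx.1.le hx.2.le
      have h2 : 0 ≤ lam * g x := mul_nonneg hl this
      have h3 := Real.exp_pos (c * x)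
      nlinarith
  have h1 := hanti ⟨le_rfl, h0.trans hs⟩ ⟨h0, hs⟩ h0
  have h2 : φ 0 = 1 := by rw [hφ]; simp [K.k0]
  rw [h2] at h1
  have h3 : k s * Real.exp (c * s) ≤ 1 := h1
  rw [Real.exp_neg, ← one_div, le_div_iff₀ (Real.exp_pos _)]
  exact h3

lemma exp_int (c : ℝ) (hc : 0 < c) (T : ℝ) : ∫ s in (0:ℝ)..T, Real.exp (-(c * s)) = (1 - Real.exp (-(c * T))) / c := by
  have hd : ∀ s ∈ uIcc 0 T, HasDerivAt (fun s : ℝ => -(Real.exp (-c * s)) / c) (Real.exp (-(c * s))) s := by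
    intro s _
    have h := ((exp_hd (-c) s).neg).div_const c
    have e : -(-c * Real.exp (-c * s)) / c = Real.exp (-(c * s)) := by
      rw [show -c * s = -(c * s) by ring]
      field_simp
    exact h.congr_deriv e
  rw [intervalIntegral.integral_eq_sub_of_hasDerivAt hd
    ((Real.continuous_exp.comp (continuous_const.mul continuous_id).neg).intervalIntegrable _ _)]
  simp only [mul_zero, Real.exp_zero, neg_mul]
  ring

theorem Ker.over {c lam : ℝ} (hc : 0 < c) {g k : ℝ → ℝ} (K : Ker c lam g k) (hl : 0 ≤ lam)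
    (hg : ∀ s, 0 ≤ s → 0 ≤ g s) : Dec c k := by
  refine ⟨fun s => Real.exp (-(c * s)), fun s => k s - Real.exp (-(c * s)), ?_, ?_, ?_, ?_, ?_⟩
  · exact Real.continuous_exp.comp (continuous_const.mul continuous_id).neg
  · exact K.kc.sub (Real.continuous_exp.comp (continuous_const.mul continuous_id).neg)
  · intro s _; ring
  · intro s _; rw [abs_of_pos (Real.exp_pos _)]
  · intro T hT
    have h1 : ∫ s in (0:ℝ)..T, |k s - Real.exp (-(c * s))| = ∫ s in (0:ℝ)..T, (Real.exp (-(c * s)) - k s) := by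
      apply intervalIntegral.integral_congr
      intro s hs
      rw [uIcc_of_le hT] at hs
      have := K.env hl (b := s) (fun x hx _ => hg x hx) hs.1 le_rfl
      show |k s - Real.exp (-(c * s))| = _
      rw [abs_of_nonpos (by linarith)]; ring
    have h2 : ∫ s in (0:ℝ)..T, k s = g T - g 0 :=
      intervalIntegral.integral_eq_sub_of_hasDerivAt (fun s _ => K.hg s) (K.kc.intervalIntegrable _ _)
    have ei : Continuous (fun s : ℝ => Real.exp (-(c * s))) := by fun_prop
    rw [h1, intervalIntegral.integral_sub (ei.intervalIntegrable _ _)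
      (K.kc.intervalIntegrable _ _), h2, exp_int c hc, K.g0]
    have h3 := hg T hT
    have h4 := Real.exp_pos (-(c * T))
    have h5 : (1 - Real.exp (-(c * T))) / c ≤ 1 / c := by
      apply div_le_div_of_nonneg_right _ hc.le; linarith
    linarith

theorem Ker.mid {c lam : ℝ} (hc : 0 < c) {g k : ℝ → ℝ} (K : Ker c lam g k) (hl : 0 ≤ lam) {b : ℝ} (hb : 0 ≤ b)
    (hg : ∀ s, 0 ≤ s → s ≤ b → 0 ≤ g s) (hk : ∀ s, 0 ≤ s → s ≤ b → 0 ≤ k s) (hkb : k b = 0)
    (hI : ∀ T, b ≤ T → ∫ s in b..T, |k s| ≤ 1 / c) : Dec c k := by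
  refine ⟨fun s => k (min s b), fun s => k (max s b), ?_, ?_, ?_, ?_, ?_⟩
  · exact K.kc.comp (continuous_id.min continuous_const)
  · exact K.kc.comp (continuous_id.max continuous_const)
  · intro s _
    rcases le_total s b with h | h
    · simp only [min_eq_left h, max_eq_right h, hkb, add_zero]
    · simp only [min_eq_right h, max_eq_left h, hkb, zero_add]
  · intro s hs
    rcases le_total s b with h | h
    · simp only [min_eq_left h]
      rw [abs_of_nonneg (hk s hs h)]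
      exact K.env hl hg hs h
    · simp only [min_eq_right h, hkb, abs_zero]
      exact (Real.exp_pos _).le
  · intro T hT
    have hcont : Continuous (fun s => |k (max s b)|) := (K.kc.comp (continuous_id.max continuous_const)).abs
    have hz : ∀ x, x ≤ b → ∫ s in (0:ℝ)..x, |k (max s b)| = 0 ∨ x < 0 := by
      intro x hx
      rcases lt_or_ge x 0 with h0 | h0
      · right; exact h0
      · left
        have : ∫ s in (0:ℝ)..x, |k (max s b)| = ∫ s in (0:ℝ)..x, (0:ℝ) := by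
          apply intervalIntegral.integral_congr
          intro s hs
          rw [uIcc_of_le h0] at hs
          show |k (max s b)| = 0
          rw [max_eq_right (hs.2.trans hx), hkb, abs_zero]
        rw [this]; simp
    rcases le_total T b with h | h
    · rcases hz T h with h1 | h1
      · rw [h1]; positivity
      · linarith
    · have h1 : ∫ s in b..T, |k (max s b)| = ∫ s in b..T, |k s| := by
        apply intervalIntegral.integral_congr
        intro s hs
        rw [uIcc_of_le h] at hs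
        show |k (max s b)| = |k s|
        rw [max_eq_left hs.1]
      rw [← intervalIntegral.integral_add_adjacent_intervals (hcont.intervalIntegrable 0 b)
        (hcont.intervalIntegrable b T), h1]
      rcases hz b le_rfl with h2 | h2
      · rw [h2, zero_add]; exact hI T h
      · linarith

/-! ### quadratic forms along the kernel, `c = 2 γ` -/

/-- `-exp(γ s) k²` is the derivative of this form -/
noncomputable def Pf (γ lam : ℝ) (g k : ℝ → ℝ) (s : ℝ) : ℝ :=
  Real.exp (γ * s) * ((2 * lam - γ ^ 2) / (γ * (4 * lam - 3 * γ ^ 2)) * k s ^ 2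
    + 2 * lam / (4 * lam - 3 * γ ^ 2) * (k s * g s) + 2 * lam ^ 2 / (γ * (4 * lam - 3 * γ ^ 2)) * g s ^ 2)

lemma Pf_hd {γ lam : ℝ} {g k : ℝ → ℝ} (K : Ker (2 * γ) lam g k) (hγ : 0 < γ) (hd : 0 < 4 * lam - 3 * γ ^ 2) (s : ℝ) :
    HasDerivAt (Pf γ lam g k) (-(Real.exp (γ * s) * k s ^ 2)) s := by
  have h1 := exp_hd γ s
  have hk2 := (K.hk s).mul (K.hk s)
  have hg2 := (K.hg s).mul (K.hg s)
  have hkg := (K.hk s).mul (K.hg s)
  have h2 := (((hk2.const_mul ((2 * lam - γ ^ 2) / (γ * (4 * lam - 3 * γ ^ 2)))).add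
    (hkg.const_mul (2 * lam / (4 * lam - 3 * γ ^ 2)))).add
    (hg2.const_mul (2 * lam ^ 2 / (γ * (4 * lam - 3 * γ ^ 2)))))
  have h3 := h1.mul h2
  have e : Pf γ lam g k = fun s => Real.exp (γ * s) * ((2 * lam - γ ^ 2) / (γ * (4 * lam - 3 * γ ^ 2)) * (k s * k s)
    + 2 * lam / (4 * lam - 3 * γ ^ 2) * (k s * g s) + 2 * lam ^ 2 / (γ * (4 * lam - 3 * γ ^ 2)) * (g s * g s)) := by
    funext s; unfold Pf; ring
  rw [e]
  refine (h3.congr_deriv ?_)
  simp only [Pi.add_apply, Pi.mul_apply]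
  have hq : (4 * lam - 3 * γ ^ 2) * (4 * lam - 3 * γ ^ 2)⁻¹ = 1 := mul_inv_cancel₀ hd.ne'
  have hp : γ * γ⁻¹ = 1 := mul_inv_cancel₀ hγ.ne'
  simp only [div_eq_mul_inv, mul_inv]
  generalize (4 * lam - 3 * γ ^ 2)⁻¹ = q at *
  generalize γ⁻¹ = p at *
  generalize Real.exp (γ * s) = X at *
  generalize k s = a at *
  generalize g s = b at *
  linear_combination (X * (a ^ 2 * (-3 * (2 * lam - γ ^ 2) * q) + a * b * (2 * lam * γ * q) + b ^ 2 * (2 * lam ^ 2 * q))) * hp
    - X * a ^ 2 * hq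

lemma Pf_nonneg {γ lam : ℝ} {g k : ℝ → ℝ} (hγ : 0 < γ) (hd : 0 < 4 * lam - 3 * γ ^ 2) (s : ℝ) :
    0 ≤ Pf γ lam g k s := by
  unfold Pf
  have hl : 0 < lam := by nlinarith [sq_nonneg γ]
  have e : (2 * lam - γ ^ 2) / (γ * (4 * lam - 3 * γ ^ 2)) * k s ^ 2
    + 2 * lam / (4 * lam - 3 * γ ^ 2) * (k s * g s) + 2 * lam ^ 2 / (γ * (4 * lam - 3 * γ ^ 2)) * g s ^ 2 =
    (2 * (lam * g s + γ / 2 * k s) ^ 2 + (2 * lam - 3 / 2 * γ ^ 2) * k s ^ 2) / (γ * (4 * lam - 3 * γ ^ 2)) := by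
    field_simp
    ring
  rw [e]
  have h1 : 0 ≤ 2 * (lam * g s + γ / 2 * k s) ^ 2 + (2 * lam - 3 / 2 * γ ^ 2) * k s ^ 2 := by
    have : 0 ≤ 2 * lam - 3 / 2 * γ ^ 2 := by linarith
    positivity
  have h2 : 0 < γ * (4 * lam - 3 * γ ^ 2) := by positivity
  positivity

lemma en_hd {c lam : ℝ} {g k : ℝ → ℝ} (K : Ker c lam g k) (s : ℝ) :
    HasDerivAt (fun s => k s ^ 2 + lam * g s ^ 2) (-(2 * c * k s ^ 2)) s := by
  have h := ((K.hk s).mul (K.hk s)).add (((K.hg s).mul (K.hg s)).const_mul lam)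
  have e : (fun s => k s ^ 2 + lam * g s ^ 2) = fun s => k s * k s + lam * (g s * g s) := by
    funext s; ring
  rw [e]
  refine h.congr_deriv ?_
  ring

end Pool.Agent.X91.OS
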