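import Mathlib

/-!
# Duhamel formula for scalar damped oscillators with locally integrable forcing
-/

set_option autoImplicit false

open MeasureTheory Set Filter Topology

namespace Pool.Agent.X91.OS

lemma ac_prod {h φ φ' y : ℝ → ℝ} {t : ℝ} (ht : 0 ≤ t) (hh : IntervalIntegrable h volume 0 t)
    (hφ : ∀ s, HasDerivAt φ (φ' s) s) (hc : Continuous φ')
    (hy : ∀ s ∈ Icc 0 t, y s = y 0 + ∫ r in (0:ℝ)..s, h r) :
    φ t * y t - φ 0 * y 0 = ∫ s in (0:ℝ)..t, (φ' s * y s + φ s * h s) := by
  have hCD : ContDiff ℝ 1 φ := by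
    rw [contDiff_one_iff_deriv]
    refine ⟨fun s => (hφ s).differentiableAt, ?_⟩
    have : deriv φ = φ' := funext fun s => (hφ s).deriv
    rw [this]; exact hc
  have hac1 : AbsolutelyContinuousOnInterval φ 0 t := by
    have : AbsolutelyContinuousOnInterval (fun x => ∫ v in (0:ℝ)..x, φ' v) 0 t :=
      (hc.intervalIntegrable 0 t).absolutelyContinuousOnInterval_intervalIntegral (by simp)
    have e : φ = fun x => (∫ v in (0:ℝ)..x, φ' v) + φ 0 := by
      funext x
      rw [intervalIntegral.integral_eq_sub_of_hasDerivAt (fun s _ => hφ s) (hc.intervalIntegrable _ _)]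
      ring
    rw [e]
    have hconst : AbsolutelyContinuousOnInterval (fun _ : ℝ => φ 0) 0 t :=
      (LipschitzWith.const (φ 0)).lipschitzOnWith.absolutelyContinuousOnInterval
    exact this.add hconst
  set g : ℝ → ℝ := fun s => (∫ r in (0:ℝ)..s, h r) + y 0 with hg
  have hac2 : AbsolutelyContinuousOnInterval g 0 t := by
    have h1 : AbsolutelyContinuousOnInterval (fun x => ∫ v in (0:ℝ)..x, h v) 0 t :=
      hh.absolutelyContinuousOnInterval_intervalIntegral (by simp)
    have hconst : AbsolutelyContinuousOnInterval (fun _ : ℝ => y 0) 0 t :=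
      (LipschitzWith.const (y 0)).lipschitzOnWith.absolutelyContinuousOnInterval
    exact h1.add hconst
  have key := hac1.integral_deriv_mul_eq_sub hac2
  have hgy : ∀ s ∈ Icc 0 t, g s = y s := by
    intro s hs; rw [hg, hy s hs]; ring
  rw [hgy t ⟨ht, le_rfl⟩, hgy 0 ⟨le_rfl, ht⟩] at key
  rw [← key]
  apply intervalIntegral.integral_congr_ae
  have hae := hh.ae_hasDerivAt_integral
  filter_upwards [hae] with s hs hs'
  have hs2 : s ∈ uIcc 0 t := uIoc_subset_uIcc hs'
  have hd : HasDerivAt g (h s) s := by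
    have := hs hs2 0 (by simp)
    exact this.add_const _
  rw [uIcc_of_le ht] at hs2
  rw [(hφ s).deriv, hd.deriv, hgy s hs2]

/-- fundamental solution of `g'' + c g' + lam g = 0`, `k = g'` -/
structure Ker (c lam : ℝ) (g k : ℝ → ℝ) : Prop where
  hg : ∀ s, HasDerivAt g (k s) s
  hk : ∀ s, HasDerivAt k (-(c * k s) - lam * g s) s
  g0 : g 0 = 0
  k0 : k 0 = 1

lemma Ker.gc {c lam : ℝ} {g k : ℝ → ℝ} (h : Ker c lam g k) : Continuous g :=
  continuous_iff_continuousAt.2 fun s => (h.hg s).continuousAt

lemma Ker.kc {c lam : ℝ} {g k : ℝ → ℝ} (h : Ker c lam g k) : Continuous k :=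
  continuous_iff_continuousAt.2 fun s => (h.hk s).continuousAt

theorem Ker.duh {c lam : ℝ} {g k : ℝ → ℝ} (K : Ker c lam g k) {F U W : ℝ → ℝ} {t : ℝ} (ht : 0 ≤ t)
    (hF : IntervalIntegrable F volume 0 t) (hWc : ContinuousOn W (Icc 0 t))
    (hU : ∀ s ∈ Icc 0 t, U s = U 0 + ∫ r in (0:ℝ)..s, W r)
    (hW : ∀ s ∈ Icc 0 t, W s = W 0 + ∫ r in (0:ℝ)..s, (F r - c * W r - lam * U r)) :
    W t = k t * W 0 - lam * (g t * U 0) + ∫ s in (0:ℝ)..t, k (t - s) * F s := by
  have hWi : IntervalIntegrable W volume 0 t := by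
    apply ContinuousOn.intervalIntegrable; rwa [uIcc_of_le ht]
  have hUc : ContinuousOn U (Icc 0 t) := by
    have h1 : ContinuousOn (fun s => U 0 + ∫ r in (0:ℝ)..s, W r) (Icc 0 t) := by
      have := intervalIntegral.continuousOn_primitive_interval' hWi (by simp : (0:ℝ) ∈ uIcc 0 t)
      rw [uIcc_of_le ht] at this
      exact continuousOn_const.add this
    exact h1.congr (fun s hs => hU s hs)
  have hUi : IntervalIntegrable U volume 0 t := by
    apply ContinuousOn.intervalIntegrable; rwa [uIcc_of_le ht]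
  have hhi : IntervalIntegrable (fun r => F r - c * W r - lam * U r) volume 0 t :=
    (hF.sub (hWi.const_mul c)).sub (hUi.const_mul lam)
  have hsub : ∀ s : ℝ, HasDerivAt (fun s => t - s) (-1) s := fun s => by
    simpa using (hasDerivAt_id s).const_sub t
  have d1 : ∀ s, HasDerivAt (fun s => k (t - s)) (c * k (t - s) + lam * g (t - s)) s := by
    intro s
    have e : c * k (t - s) + lam * g (t - s) = (-(c * k (t - s)) - lam * g (t - s)) * (-1) := by ring
    rw [e]
    exact (K.hk (t - s)).comp s (hsub s)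
  have d2 : ∀ s, HasDerivAt (fun s => g (t - s)) (-k (t - s)) s := by
    intro s
    have e : -k (t - s) = k (t - s) * (-1) := by ring
    rw [e]
    exact (K.hg (t - s)).comp s (hsub s)
  have kc : Continuous (fun s => k (t - s)) := K.kc.comp (continuous_const.sub continuous_id)
  have gc : Continuous (fun s => g (t - s)) := K.gc.comp (continuous_const.sub continuous_id)
  have e1 := ac_prod ht hhi d1 ((continuous_const.mul kc).add (continuous_const.mul gc)) hW
  have e2 := ac_prod ht hWi d2 kc.neg hU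
  simp only [sub_self, sub_zero, K.k0, K.g0] at e1 e2
  have i1 : IntervalIntegrable (fun s => k (t - s) * F s) volume 0 t := hF.continuousOn_mul kc.continuousOn
  have i2 : IntervalIntegrable (fun s => -k (t - s) * U s + g (t - s) * W s) volume 0 t :=
    (hUi.continuousOn_mul kc.neg.continuousOn).add (hWi.continuousOn_mul gc.continuousOn)
  have e3 : ∫ s in (0:ℝ)..t, ((c * k (t - s) + lam * g (t - s)) * W s + k (t - s) * (F s - c * W s - lam * U s)) =
      (∫ s in (0:ℝ)..t, k (t - s) * F s) + lam * ∫ s in (0:ℝ)..t, (-k (t - s) * U s + g (t - s) * W s) := by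
    rw [← intervalIntegral.integral_const_mul, ← intervalIntegral.integral_add i1 (i2.const_mul lam)]
    congr 1
    funext s; ring
  rw [e3, ← e2] at e1
  linarith

end Pool.Agent.X91.OS
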