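import Pool.Agent.X91.OS.Dec

/-!
# The kernel decomposition in all damping regimes
-/

set_option autoImplicit false

open MeasureTheory Set Filter Topology

namespace Pool.Agent.X91.OS

noncomputable def gt (γ ω s : ℝ) : ℝ := Real.exp (-γ * s) * (Real.sin (ω * s) / ω)
noncomputable def kt (γ ω s : ℝ) : ℝ := Real.exp (-γ * s) * (Real.cos (ω * s) - γ / ω * Real.sin (ω * s))

lemma ker_trig {γ ω : ℝ} (hω : 0 < ω) : Ker (2 * γ) (γ ^ 2 + ω ^ 2) (gt γ ω) (kt γ ω) where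
  hg := fun s => by
    have h1 := exp_hd (-γ) s
    have h2 : HasDerivAt (fun s => Real.sin (ω * s)) (Real.cos (ω * s) * ω) s := by
      simpa using ((hasDerivAt_id s).const_mul ω).sin
    have h3 := h1.mul (h2.div_const ω)
    refine h3.congr_deriv ?_
    unfold kt
    field_simp
    ring
  hk := fun s => by
    have h1 := exp_hd (-γ) s
    have h2 : HasDerivAt (fun s => Real.sin (ω * s)) (Real.cos (ω * s) * ω) s := by
      simpa using ((hasDerivAt_id s).const_mul ω).sin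
    have h3 : HasDerivAt (fun s => Real.cos (ω * s)) (-Real.sin (ω * s) * ω) s := by
      simpa using ((hasDerivAt_id s).const_mul ω).cos
    have h4 := h1.mul (h3.sub (h2.const_mul (γ / ω)))
    refine h4.congr_deriv ?_
    unfold kt gt
    simp only [Pi.sub_apply]
    field_simp
    ring
  g0 := by simp [gt]
  k0 := by simp [kt]

lemma exp_sq (γ s : ℝ) : Real.exp (-γ * s) ^ 2 = Real.exp (-(2 * γ * s)) := by
  rw [← Real.exp_nat_mul]; congr 1; push_cast; ring

lemma kt_sq {γ ω : ℝ} (hω : 0 < ω) (s : ℝ) :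
    ω ^ 2 * kt γ ω s ^ 2 ≤ (γ ^ 2 + ω ^ 2) * Real.exp (-(2 * γ * s)) := by
  unfold kt
  rw [mul_pow, exp_sq]
  have e : ω ^ 2 * (Real.exp (-(2 * γ * s)) * (Real.cos (ω * s) - γ / ω * Real.sin (ω * s)) ^ 2) =
      Real.exp (-(2 * γ * s)) * (ω * Real.cos (ω * s) - γ * Real.sin (ω * s)) ^ 2 := by
    field_simp
  rw [e, mul_comm (γ ^ 2 + ω ^ 2)]
  refine mul_le_mul_of_nonneg_left ?_ (Real.exp_pos _).le
  have h := Real.sin_sq_add_cos_sq (ω * s)
  nlinarith [sq_nonneg (ω * Real.sin (ω * s) + γ * Real.cos (ω * s))]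

lemma gt_sq {γ ω : ℝ} (hω : 0 < ω) (s : ℝ) : ω ^ 2 * gt γ ω s ^ 2 ≤ Real.exp (-(2 * γ * s)) := by
  unfold gt
  rw [mul_pow, exp_sq]
  have e : ω ^ 2 * (Real.exp (-(2 * γ * s)) * (Real.sin (ω * s) / ω) ^ 2) =
      Real.exp (-(2 * γ * s)) * Real.sin (ω * s) ^ 2 := by
    field_simp
  rw [e]
  have h := Real.sin_sq_le_one (ω * s)
  have := Real.exp_pos (-(2 * γ * s))
  nlinarith

lemma en_bound {γ ω : ℝ} (hω : 0 < ω) (s : ℝ) :
    kt γ ω s ^ 2 + (γ ^ 2 + ω ^ 2) * gt γ ω s ^ 2 ≤ 2 * (γ ^ 2 + ω ^ 2) / ω ^ 2 * Real.exp (-(2 * γ * s)) := by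
  have h1 := kt_sq (γ := γ) hω s
  have h2 := mul_le_mul_of_nonneg_left (gt_sq (γ := γ) hω s) (show 0 ≤ γ ^ 2 + ω ^ 2 by positivity)
  rw [div_mul_eq_mul_div, le_div_iff₀ (by positivity)]
  nlinarith

lemma tend_exp {a : ℝ} (ha : 0 < a) : Tendsto (fun s : ℝ => Real.exp (-(a * s))) atTop (𝓝 0) :=
  Real.tendsto_exp_neg_atTop_nhds_zero.comp (tendsto_id.const_mul_atTop ha)

/-- strongly underdamped case -/
theorem caseA {γ ω : ℝ} (hγ : 0 < γ) (hω : 0 < ω) (hA : 9 * γ ^ 2 ≤ ω ^ 2) : Dec (2 * γ) (kt γ ω) := by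
  obtain ⟨lam, hlam⟩ : ∃ l, l = γ ^ 2 + ω ^ 2 := ⟨_, rfl⟩
  have hK : Ker (2 * γ) lam (gt γ ω) (kt γ ω) := by rw [hlam]; exact ker_trig hω
  have hl : 0 < lam := by rw [hlam]; positivity
  obtain ⟨a, ha⟩ : ∃ a, a = ω / √lam := ⟨_, rfl⟩
  have ha0 : 0 < a := by rw [ha]; positivity
  have ha2 : a ^ 2 = ω ^ 2 / lam := by rw [ha, div_pow, Real.sq_sqrt hl.le]
  have ha1 : a ≤ 1 := by
    have : a ^ 2 ≤ 1 := by rw [ha2, div_le_one hl, hlam]; nlinarith
    nlinarith
  -- a |k| ≤ exp(-γ s)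
  have hak : ∀ s, a * |kt γ ω s| ≤ Real.exp (-γ * s) := by
    intro s
    refine (sq_le_sq₀ (by positivity) (Real.exp_pos _).le).1 ?_
    rw [mul_pow, sq_abs, exp_sq, ha2, div_mul_eq_mul_div, div_le_iff₀ hl, mul_comm (Real.exp _), hlam]
    exact kt_sq hω s
  have hΔ : 0 < 4 * lam - 3 * γ ^ 2 := by rw [hlam]; nlinarith
  refine ⟨fun s => a * Real.exp (-γ * s) * kt γ ω s, fun s => kt γ ω s * (1 - a * Real.exp (-γ * s)), ?_, ?_, ?_, ?_, ?_⟩
  · exact (continuous_const.mul (by fun_prop)).mul hK.kc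
  · exact hK.kc.mul (by fun_prop)
  · intro s _; ring
  · intro s _
    rw [abs_mul, abs_mul, abs_of_pos ha0, abs_of_pos (Real.exp_pos _), mul_assoc, mul_comm, mul_assoc, ← exp_sq, sq]
    refine mul_le_mul_of_nonneg_left ?_ (Real.exp_pos _).le
    rw [mul_comm]; exact hak s
  · intro T hT
    set r : ℝ → ℝ := fun s => kt γ ω s * (1 - a * Real.exp (-γ * s)) with hr
    have hrc : Continuous r := hK.kc.mul (by fun_prop)
    set R : ℝ → ℝ := fun s => -(5/14) / γ * Real.exp (-γ * s) - 7/10 * Pf γ lam (gt γ ω) (kt γ ω) s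
      + a ^ 2 / (4 * γ) * (kt γ ω s ^ 2 + lam * gt γ ω s ^ 2) with hR
    set R' : ℝ → ℝ := fun s => 5/14 * Real.exp (-γ * s) + 7/10 * (Real.exp (γ * s) * kt γ ω s ^ 2)
      - a ^ 2 * kt γ ω s ^ 2 with hR'
    have hRd : ∀ s, HasDerivAt R (R' s) s := by
      intro s
      have h := (((exp_hd (-γ) s).const_mul (-(5/14) / γ)).sub ((Pf_hd hK hγ hΔ s).const_mul (7/10))).add
        ((en_hd hK s).const_mul (a ^ 2 / (4 * γ)))
      refine h.congr_deriv ?_
      rw [hR']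
      field_simp
      ring
    have hR'c : Continuous R' := by
      have := hK.kc
      rw [hR']; fun_prop
    have hpt : ∀ s, 0 ≤ s → |r s| ≤ R' s := by
      intro s hs
      have hE : Real.exp (-γ * s) * Real.exp (γ * s) = 1 := by rw [← Real.exp_add]; simp
      have hEp := Real.exp_pos (-γ * s)
      have hEp' := Real.exp_pos (γ * s)
      have hE1 : Real.exp (-γ * s) ≤ 1 := Real.exp_le_one_iff.2 (by nlinarith)
      have h1 : 0 ≤ 1 - a * Real.exp (-γ * s) := by nlinarith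
      rw [hr, hR']
      simp only
      rw [abs_mul, abs_of_nonneg h1]
      have h2 := hak s
      have hz0 : 0 ≤ |kt γ ω s| := abs_nonneg _
      rw [← sq_abs (kt γ ω s)]
      generalize |kt γ ω s| = z at *
      have h3 : a ^ 2 * z ^ 2 ≤ a * Real.exp (-γ * s) * z := by
        have := mul_le_mul_of_nonneg_left h2 (mul_nonneg ha0.le hz0)
        nlinarith
      have h4 : z ≤ 5/14 * Real.exp (-γ * s) + 7/10 * (Real.exp (γ * s) * z ^ 2) := by
        have h5 : 0 ≤ Real.exp (-γ * s) * (Real.exp (γ * s) * z - 5/7) ^ 2 := by positivity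
        have h6 : Real.exp (-γ * s) * (Real.exp (γ * s) * z - 5/7) ^ 2 =
          (Real.exp (-γ * s) * Real.exp (γ * s)) * (Real.exp (γ * s) * z ^ 2)
            - 10/7 * (Real.exp (-γ * s) * Real.exp (γ * s)) * z + 25/49 * Real.exp (-γ * s) := by ring
        rw [h6, hE] at h5
        linarith
      linarith
    obtain ⟨M, hM⟩ : ∃ M, M = - R 0 := ⟨_, rfl⟩
    have hP0 : Pf γ lam (gt γ ω) (kt γ ω) 0 = (2 * lam - γ ^ 2) / (γ * (4 * lam - 3 * γ ^ 2)) := by
      unfold Pf; rw [hK.g0, hK.k0]; simp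
    have hMval : M = 1 / γ * (5/14 + 7/10 * ((2 * lam - γ ^ 2) / (4 * lam - 3 * γ ^ 2)) - ω ^ 2 / lam / 4) := by
      rw [hM, hR]
      simp only
      rw [hP0, hK.g0, hK.k0, ha2]
      simp only [mul_zero, Real.exp_zero]
      have := hΔ.ne'
      field_simp
      ring
    have hMle : M ≤ 1 / (2 * γ) := by
      have h1 : (2 * lam - γ ^ 2) / (4 * lam - 3 * γ ^ 2) ≤ 19/37 := by
        rw [div_le_iff₀ hΔ]; nlinarith
      have h2 : 9/10 ≤ ω ^ 2 / lam := by rw [le_div_iff₀ hl]; nlinarith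
      have h3 : 5/14 + 7/10 * ((2 * lam - γ ^ 2) / (4 * lam - 3 * γ ^ 2)) - ω ^ 2 / lam / 4 ≤ 1/2 := by linarith
      rw [hMval]
      have h4 : 1 / (2 * γ) = 1 / γ * (1/2) := by field_simp
      rw [h4]
      exact mul_le_mul_of_nonneg_left h3 (by positivity)
    have hbd : ∀ᶠ T' in atTop, ∫ s in (0:ℝ)..T, |r s| ≤
        a ^ 2 / (4 * γ) * (2 * lam / ω ^ 2 * Real.exp (-(2 * γ * T'))) + M := by
      filter_upwards [eventually_ge_atTop T] with T' hT'
      have h0T' : 0 ≤ T' := hT.trans hT'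
      have h1 : ∫ s in (0:ℝ)..T, |r s| ≤ ∫ s in (0:ℝ)..T', |r s| := by
        rw [← intervalIntegral.integral_add_adjacent_intervals (hrc.abs.intervalIntegrable 0 T)
          (hrc.abs.intervalIntegrable T T')]
        have : 0 ≤ ∫ s in T..T', |r s| := intervalIntegral.integral_nonneg hT' (fun _ _ => abs_nonneg _)
        linarith
      have h2 : ∫ s in (0:ℝ)..T', |r s| ≤ ∫ s in (0:ℝ)..T', R' s :=
        intervalIntegral.integral_mono_on h0T' (hrc.abs.intervalIntegrable _ _) (hR'c.intervalIntegrable _ _)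
          (fun s hs => hpt s hs.1)
      have h3 : ∫ s in (0:ℝ)..T', R' s = R T' - R 0 :=
        intervalIntegral.integral_eq_sub_of_hasDerivAt (fun s _ => hRd s) (hR'c.intervalIntegrable _ _)
      have h4 : R T' ≤ a ^ 2 / (4 * γ) * (2 * lam / ω ^ 2 * Real.exp (-(2 * γ * T'))) := by
        have h5 := Pf_nonneg (g := gt γ ω) (k := kt γ ω) hγ hΔ T'
        have h6 : 0 ≤ (5/14) / γ * Real.exp (-γ * T') := by positivity
        have h7 := en_bound (γ := γ) hω T'
        rw [← hlam] at h7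
        have h8 := mul_le_mul_of_nonneg_left h7 (show 0 ≤ a ^ 2 / (4 * γ) by positivity)
        rw [hR]
        simp only
        have h9 : -(5/14) / γ * Real.exp (-γ * T') = -((5/14) / γ * Real.exp (-γ * T')) := by ring
        rw [h9]
        linarith
      rw [h3] at h2
      rw [hM]
      linarith
    have hlim : Tendsto (fun T' : ℝ => a ^ 2 / (4 * γ) * (2 * lam / ω ^ 2 * Real.exp (-(2 * γ * T'))) + M) atTop
        (𝓝 (a ^ 2 / (4 * γ) * (2 * lam / ω ^ 2 * 0) + M)) :=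
      ((tend_exp (show 0 < 2 * γ by positivity)).const_mul _ |>.const_mul _).add_const _
    have := ge_of_tendsto hlim hbd
    rw [mul_zero, mul_zero, zero_add] at this
    exact this.trans hMle

end Pool.Agent.X91.OS
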