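import Pool.Agent.X91.OS.Kern

/-!
# The kernel decomposition: moderately damped case and the conclusion
-/

set_option autoImplicit false

open MeasureTheory Set Filter Topology

namespace Pool.Agent.X91.OS

lemma expneg_le {a q : ℝ} (ha : 0 ≤ a) (hq : 0 < q)
    (h : 1 ≤ q * (1 + a + a ^ 2 / 2 + a ^ 3 / 6 + a ^ 4 / 24 + a ^ 5 / 120 + a ^ 6 / 720 + a ^ 7 / 5040)) :
    Real.exp (-a) ≤ q := by
  have h1 := Real.sum_le_exp_of_nonneg ha 8
  simp only [Finset.sum_range_succ, Finset.sum_range_zero, Nat.factorial] at h1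
  norm_num at h1
  rw [Real.exp_neg, inv_le_comm₀ (Real.exp_pos _) hq]
  refine le_trans ?_ h1
  rw [inv_le_iff_one_le_mul₀ hq]
  linarith

/-- `exp(-2v) ≤ 1/2 - 3/8 v²` in the middle range -/
lemma num_mid {v : ℝ} (h1 : 447/1000 ≤ v) (h2 : v ≤ 895/1000) : Real.exp (-(2 * v)) ≤ 1/2 - 3/8 * v ^ 2 := by
  have step : ∀ a b q : ℝ, 0 ≤ a → a ≤ v → v ≤ b → Real.exp (-(2 * a)) ≤ q → q ≤ 1/2 - 3/8 * b ^ 2 →
      Real.exp (-(2 * v)) ≤ 1/2 - 3/8 * v ^ 2 := by
    intro a b q ha hav hvb hq hb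
    have e1 : Real.exp (-(2 * v)) ≤ Real.exp (-(2 * a)) := Real.exp_le_exp.2 (by linarith)
    have e2 : v ^ 2 ≤ b ^ 2 := by nlinarith
    linarith
  rcases le_total v (49/100) with h | h
  · exact step (447/1000) (49/100) (1/2 - 3/8 * (49/100) ^ 2) (by norm_num) h1 h
      (expneg_le (by norm_num) (by norm_num) (by norm_num)) le_rfl
  rcases le_total v (57/100) with h' | h'
  · exact step (49/100) (57/100) (1/2 - 3/8 * (57/100) ^ 2) (by norm_num) h h'
      (expneg_le (by norm_num) (by norm_num) (by norm_num)) le_rfl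
  rcases le_total v (69/100) with h'' | h''
  · exact step (57/100) (69/100) (1/2 - 3/8 * (69/100) ^ 2) (by norm_num) h' h''
      (expneg_le (by norm_num) (by norm_num) (by norm_num)) le_rfl
  rcases le_total v (81/100) with h3 | h3
  · exact step (69/100) (81/100) (1/2 - 3/8 * (81/100) ^ 2) (by norm_num) h'' h3
      (expneg_le (by norm_num) (by norm_num) (by norm_num)) le_rfl
  · exact step (81/100) (895/1000) (1/2 - 3/8 * (895/1000) ^ 2) (by norm_num) h3 h2
      (expneg_le (by norm_num) (by norm_num) (by norm_num)) le_rfl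

/-- moderately underdamped case -/
theorem caseB {γ ω : ℝ} (hγ : 0 < γ) (hω : 0 < ω) (hB : ω ^ 2 ≤ 9 * γ ^ 2) : Dec (2 * γ) (kt γ ω) := by
  obtain ⟨lam, hlam⟩ : ∃ l, l = γ ^ 2 + ω ^ 2 := ⟨_, rfl⟩
  have hK : Ker (2 * γ) lam (gt γ ω) (kt γ ω) := by rw [hlam]; exact ker_trig hω
  have hl : 0 < lam := by rw [hlam]; positivity
  have hΔ : 0 < 4 * lam - 3 * γ ^ 2 := by rw [hlam]; nlinarith
  obtain ⟨Λ, hΛ⟩ : ∃ Λ, Λ = √lam := ⟨_, rfl⟩
  have hΛ0 : 0 < Λ := by rw [hΛ]; positivity
  have hΛ2 : Λ ^ 2 = lam := by rw [hΛ, Real.sq_sqrt hl.le]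
  obtain ⟨θ, hθ⟩ : ∃ θ, θ = Real.arctan (ω / γ) := ⟨_, rfl⟩
  have hθ0 : 0 < θ := by rw [hθ]; exact Real.arctan_pos.2 (by positivity)
  have hθ1 : θ < Real.pi / 2 := by rw [hθ]; exact Real.arctan_lt_pi_div_two _
  have hsq : √(1 + (ω / γ) ^ 2) = Λ / γ := by
    rw [hΛ, Real.sqrt_eq_iff_mul_self_eq (by positivity) (by positivity)]
    rw [div_mul_div_comm, Real.mul_self_sqrt hl.le, hlam]
    field_simp
  have hcos : Real.cos θ = γ / Λ := by
    rw [hθ, Real.cos_arctan, hsq]; field_simp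
  have hsin : Real.sin θ = ω / Λ := by
    rw [hθ, Real.sin_arctan, hsq]; field_simp
  obtain ⟨b, hb⟩ : ∃ b, b = θ / ω := ⟨_, rfl⟩
  have hb0 : 0 < b := by rw [hb]; positivity
  have hωb : ω * b = θ := by rw [hb]; field_simp
  -- formula for the kernel
  have hkf : ∀ s, kt γ ω s = -(Λ / ω) * (Real.exp (-γ * s) * Real.sin (ω * (s - b))) := by
    intro s
    unfold kt
    have e0 : ω * (s - b) = ω * s - θ := by rw [mul_sub, hωb]
    rw [e0, Real.sin_sub, hcos, hsin]
    field_simp
    ring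
  have hkb : kt γ ω b = 0 := by rw [hkf, sub_self, mul_zero, Real.sin_zero]; ring
  have hgn : ∀ s, 0 ≤ s → s ≤ b → 0 ≤ gt γ ω s := by
    intro s h0 hs
    unfold gt
    have h1 : ω * s ≤ θ := by rw [← hωb]; exact mul_le_mul_of_nonneg_left hs hω.le
    have h2 : 0 ≤ Real.sin (ω * s) := Real.sin_nonneg_of_nonneg_of_le_pi (by positivity) (by linarith [Real.pi_pos])
    positivity
  have hkn : ∀ s, 0 ≤ s → s ≤ b → 0 ≤ kt γ ω s := by
    intro s h0 hs
    rw [hkf]
    have h1 : ω * (s - b) ≤ 0 := mul_nonpos_of_nonneg_of_nonpos hω.le (by linarith)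
    have h2 : -(Real.pi / 2) ≤ ω * (s - b) := by
      have : ω * (s - b) = ω * s - θ := by rw [mul_sub, hωb]
      rw [this]
      have : 0 ≤ ω * s := by positivity
      linarith
    have h3 : Real.sin (ω * (s - b)) ≤ 0 := Real.sin_nonpos_of_nonpos_of_neg_pi_le h1 (by linarith [Real.pi_pos])
    have h4 : Real.exp (-γ * s) * Real.sin (ω * (s - b)) ≤ 0 :=
      mul_nonpos_of_nonneg_of_nonpos (Real.exp_pos _).le h3
    have h5 : 0 < Λ / ω := by positivity
    nlinarith
  have hgb : gt γ ω b = Real.exp (-γ * b) / Λ := by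
    unfold gt
    rw [hωb, hsin]; field_simp
  -- lower bounds of γ b
  have hL1 : γ / Λ ≤ γ * b := by
    have h1 : Real.sin θ ≤ θ := Real.sin_le hθ0.le
    rw [hsin] at h1
    rw [hb]
    have h2 : γ / ω * (ω / Λ) ≤ γ / ω * θ := mul_le_mul_of_nonneg_left h1 (by positivity)
    have e1 : γ / ω * (ω / Λ) = γ / Λ := by field_simp
    have e2 : γ / ω * θ = γ * (θ / ω) := by ring
    linarith
  have hL2 : γ / ω * (Real.pi / 2 - γ / ω) ≤ γ * b := by
    have h1 : Real.arctan (ω / γ) = Real.pi / 2 - Real.arctan (γ / ω) := by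
      have := Real.arctan_inv_of_pos (show 0 < γ / ω by positivity)
      rw [inv_div] at this
      exact this
    have h2 : Real.arctan (γ / ω) ≤ γ / ω := by
      have h3 : 0 ≤ γ / ω := by positivity
      have h4 := Real.arctan_nonneg.2 h3
      have h5 := Real.arctan_lt_pi_div_two (γ / ω)
      have := Real.le_tan h4 h5
      rwa [Real.tan_arctan] at this
    rw [hb, hθ, h1]
    have e2 : γ * ((Real.pi / 2 - Real.arctan (γ / ω)) / ω) = γ / ω * (Real.pi / 2 - Real.arctan (γ / ω)) := by ring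
    rw [e2]
    exact mul_le_mul_of_nonneg_left (by linarith) (by positivity)
  obtain ⟨v, hv⟩ : ∃ v, v = γ / Λ := ⟨_, rfl⟩
  have hv0 : 0 < v := by rw [hv]; positivity
  have hv2 : v ^ 2 * lam = γ ^ 2 := by rw [hv, div_pow, hΛ2]; field_simp
  rw [← hv] at hL1
  refine hK.mid (by positivity) hl.le hb0.le hgn hkn hkb (fun T hT => ?_)
  rcases le_total (894/1000) v with hcase | hcase
  · -- near critical
    have hpt : ∀ s ∈ Icc b T, |kt γ ω s| ≤ Λ * (Real.exp (-γ * s) * (s - b)) := by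
      intro s hs
      have h1 : |Real.sin (ω * (s - b))| ≤ ω * (s - b) := by
        have := Real.abs_sin_le_abs (x := ω * (s - b))
        rwa [abs_of_nonneg (mul_nonneg hω.le (by linarith [hs.1]))] at this
      rw [hkf, abs_mul, abs_mul, abs_neg, abs_of_pos (show 0 < Λ / ω by positivity), abs_of_pos (Real.exp_pos _)]
      have h2 := mul_le_mul_of_nonneg_left (mul_le_mul_of_nonneg_left h1 (Real.exp_pos (-γ * s)).le)
        (show 0 ≤ Λ / ω by positivity)
      refine h2.trans (le_of_eq ?_)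
      field_simp
    have hd : ∀ s ∈ uIcc b T, HasDerivAt (fun s => -(Λ * (Real.exp (-γ * s) * ((s - b) / γ + 1 / γ ^ 2))))
        (Λ * (Real.exp (-γ * s) * (s - b))) s := by
      intro s _
      have h1 : HasDerivAt (fun s : ℝ => (s - b) / γ + 1 / γ ^ 2) (1 / γ) s := by
        simpa using (((hasDerivAt_id s).sub_const b).div_const γ).add_const (1 / γ ^ 2)
      have h2 := (((exp_hd (-γ) s).mul h1).const_mul Λ).neg
      refine h2.congr_deriv ?_
      field_simp
      ring
    have hc1 : Continuous (fun s => Λ * (Real.exp (-γ * s) * (s - b))) := by fun_prop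
    have h1 : ∫ s in b..T, |kt γ ω s| ≤ ∫ s in b..T, Λ * (Real.exp (-γ * s) * (s - b)) :=
      intervalIntegral.integral_mono_on hT (hK.kc.abs.intervalIntegrable _ _) (hc1.intervalIntegrable _ _) hpt
    rw [intervalIntegral.integral_eq_sub_of_hasDerivAt hd (hc1.intervalIntegrable _ _)] at h1
    have h2 : 0 ≤ Λ * (Real.exp (-γ * T) * ((T - b) / γ + 1 / γ ^ 2)) := by
      have : 0 ≤ T - b := by linarith
      positivity
    have h3 : Real.exp (-γ * b) ≤ v / 2 := by
      have e1 : Real.exp (-γ * b) ≤ Real.exp (-(894/1000)) := Real.exp_le_exp.2 (by linarith)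
      have e2 : Real.exp (-(894/1000)) ≤ 42/100 := expneg_le (by norm_num) (by norm_num) (by norm_num)
      linarith
    have h4 : Λ * (Real.exp (-γ * b) * ((b - b) / γ + 1 / γ ^ 2)) ≤ 1 / (2 * γ) := by
      have e1 : Λ * (Real.exp (-γ * b) * ((b - b) / γ + 1 / γ ^ 2)) = Λ / γ ^ 2 * Real.exp (-γ * b) := by
        rw [sub_self]; ring
      rw [e1]
      have e2 := mul_le_mul_of_nonneg_left h3 (show 0 ≤ Λ / γ ^ 2 by positivity)
      refine e2.trans (le_of_eq ?_)
      rw [hv]; field_simp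
    linarith
  · -- L² bound
    have hX : Real.exp (-(2 * (γ * b))) ≤ 1/2 - 3/8 * v ^ 2 := by
      rcases le_total (447/1000) v with hc2 | hc2
      · have e1 : Real.exp (-(2 * (γ * b))) ≤ Real.exp (-(2 * v)) := Real.exp_le_exp.2 (by linarith)
        exact e1.trans (num_mid hc2 (by linarith))
      · -- x between 1/3 and 1/2
        obtain ⟨x, hx⟩ : ∃ x, x = γ / ω := ⟨_, rfl⟩
        have hx0 : 0 < x := by rw [hx]; positivity
        rw [← hx] at hL2
        have hxω : x * ω = γ := by rw [hx]; field_simp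
        have hxsq : v ^ 2 * (1 + x ^ 2) = x ^ 2 := by
          have h1 : v ^ 2 * (γ ^ 2 + ω ^ 2) = γ ^ 2 := by rw [← hlam]; exact hv2
          rw [← hxω] at h1
          have h2 : ω ^ 2 * (v ^ 2 * (1 + x ^ 2)) = ω ^ 2 * x ^ 2 := by nlinarith
          exact mul_left_cancel₀ (by positivity) h2
        have hx3 : 1/3 ≤ x := by
          have : 1 ≤ 9 * x ^ 2 := by
            have h1 : ω ^ 2 ≤ 9 * (x * ω) ^ 2 := by rw [hxω]; exact hB
            have h2 : ω ^ 2 * 1 ≤ ω ^ 2 * (9 * x ^ 2) := by nlinarith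
            exact le_of_mul_le_mul_left h2 (by positivity)
          nlinarith
        have hv5 : v ^ 2 ≤ 1/5 := by nlinarith
        have hx2 : x ≤ 1/2 := by nlinarith
        have hpi := Real.pi_gt_d6
        rcases le_total x (2/5) with hc3 | hc3
        · have h1 : 412/1000 ≤ γ * b := by
            refine le_trans ?_ hL2
            have : 1/3 * (Real.pi / 2 - 1/3) ≤ x * (Real.pi / 2 - x) := by nlinarith
            nlinarith
          have e1 : Real.exp (-(2 * (γ * b))) ≤ Real.exp (-(824/1000)) := Real.exp_le_exp.2 (by linarith)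
          have e2 : Real.exp (-(824/1000)) ≤ 448/1000 := expneg_le (by norm_num) (by norm_num) (by norm_num)
          have h2 : v ^ 2 ≤ 4/29 := by nlinarith
          linarith
        · have h1 : 468/1000 ≤ γ * b := by
            refine le_trans ?_ hL2
            have : 2/5 * (Real.pi / 2 - 2/5) ≤ x * (Real.pi / 2 - x) := by nlinarith
            nlinarith
          have e1 : Real.exp (-(2 * (γ * b))) ≤ Real.exp (-(936/1000)) := Real.exp_le_exp.2 (by linarith)
          have e2 : Real.exp (-(936/1000)) ≤ 425/1000 := expneg_le (by norm_num) (by norm_num) (by norm_num)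
          linarith
    set D : ℝ := Real.exp (γ * b) with hD
    have hDp : 0 < D := Real.exp_pos _
    set S : ℝ → ℝ := fun s => -(1/4) / γ * (D * Real.exp (-γ * s)) - 1 / D * Pf γ lam (gt γ ω) (kt γ ω) s with hS
    set S' : ℝ → ℝ := fun s => 1/4 * (D * Real.exp (-γ * s)) + 1 / D * (Real.exp (γ * s) * kt γ ω s ^ 2) with hS'
    have hSd : ∀ s, HasDerivAt S (S' s) s := by
      intro s
      have h := (((exp_hd (-γ) s).const_mul D).const_mul (-(1/4) / γ)).sub ((Pf_hd hK hγ hΔ s).const_mul (1 / D))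
      refine h.congr_deriv ?_
      rw [hS']
      field_simp
      ring
    have hS'c : Continuous S' := by
      have := hK.kc
      rw [hS']; fun_prop
    have hpt : ∀ s ∈ Icc b T, |kt γ ω s| ≤ S' s := by
      intro s _
      have hE : Real.exp (-γ * s) * Real.exp (γ * s) = 1 := by rw [← Real.exp_add]; simp
      rw [hS']
      simp only
      rw [← sq_abs (kt γ ω s)]
      generalize |kt γ ω s| = z
      have h5 : 0 ≤ D * Real.exp (-γ * s) * (Real.exp (γ * s) / D * z - 1/2) ^ 2 := by positivity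
      have h6 : D * Real.exp (-γ * s) * (Real.exp (γ * s) / D * z - 1/2) ^ 2 =
        (Real.exp (-γ * s) * Real.exp (γ * s)) * (1 / D * (Real.exp (γ * s) * z ^ 2))
          - (Real.exp (-γ * s) * Real.exp (γ * s)) * z + 1/4 * (D * Real.exp (-γ * s)) := by
        field_simp
        ring
      rw [h6, hE] at h5
      linarith
    have h1 : ∫ s in b..T, |kt γ ω s| ≤ ∫ s in b..T, S' s :=
      intervalIntegral.integral_mono_on hT (hK.kc.abs.intervalIntegrable _ _) (hS'c.intervalIntegrable _ _) hpt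
    rw [intervalIntegral.integral_eq_sub_of_hasDerivAt (fun s _ => hSd s) (hS'c.intervalIntegrable _ _)] at h1
    have h2 : S T ≤ 0 := by
      have := Pf_nonneg (g := gt γ ω) (k := kt γ ω) hγ hΔ T
      rw [hS]
      simp only
      have h3 : 0 ≤ (1/4) / γ * (D * Real.exp (-γ * T)) := by positivity
      have h4 : 0 ≤ 1 / D * Pf γ lam (gt γ ω) (kt γ ω) T := by positivity
      have h5 : -(1/4) / γ * (D * Real.exp (-γ * T)) = -((1/4) / γ * (D * Real.exp (-γ * T))) := by ring
      rw [h5]; linarith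
    have hDE : D * Real.exp (-γ * b) = 1 := by rw [hD, ← Real.exp_add]; simp
    have h3 : S b = -((1/4) / γ) - 2 * lam / (γ * (4 * lam - 3 * γ ^ 2)) * Real.exp (-(2 * (γ * b))) := by
      rw [hS]
      simp only
      have e1 : Pf γ lam (gt γ ω) (kt γ ω) b = D * (2 * lam ^ 2 / (γ * (4 * lam - 3 * γ ^ 2)) * (Real.exp (-(2 * (γ * b))) / lam)) := by
        unfold Pf
        rw [hkb, hgb, div_pow, exp_sq, hΛ2, show 2 * γ * b = 2 * (γ * b) by ring]
        ring
      rw [e1, hDE]
      field_simp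
    have h4 : 2 * lam / (γ * (4 * lam - 3 * γ ^ 2)) * Real.exp (-(2 * (γ * b))) ≤ (1/4) / γ := by
      have e1 := mul_le_mul_of_nonneg_left hX (show 0 ≤ 2 * lam / (γ * (4 * lam - 3 * γ ^ 2)) by positivity)
      refine e1.trans (le_of_eq ?_)
      have e2 : 2 * lam * (1/2 - 3/8 * v ^ 2) = (4 * lam - 3 * γ ^ 2) / 4 := by rw [← hv2]; ring
      rw [div_mul_eq_mul_div, e2]
      have := hΔ.ne'
      field_simp
    have h5 : 1 / (2 * γ) = (1/4) / γ + (1/4) / γ := by field_simp; ring
    rw [h3] at h1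
    rw [h5]
    linarith

end Pool.Agent.X91.OS
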