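import Pool.Agent.X91.OS.KernB

/-!
# Overdamped and critical kernels; the decomposition for all parameters
-/

set_option autoImplicit false

open MeasureTheory Set Filter Topology

namespace Pool.Agent.X91.OS

lemma tend_exp' {a : ℝ} (ha : 0 < a) : Tendsto (fun s : ℝ => Real.exp (-a * s)) atTop (𝓝 0) := by
  have := tend_exp ha
  refine this.congr (fun s => ?_)
  rw [neg_mul]

noncomputable def go (α β s : ℝ) : ℝ := (Real.exp (-α * s) - Real.exp (-β * s)) / (β - α)
noncomputable def ko (α β s : ℝ) : ℝ := (β * Real.exp (-β * s) - α * Real.exp (-α * s)) / (β - α)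

lemma ker_over {α β : ℝ} (h : α < β) : Ker (α + β) (α * β) (go α β) (ko α β) where
  hg := fun s => by
    have h1 := ((exp_hd (-α) s).sub (exp_hd (-β) s)).div_const (β - α)
    refine h1.congr_deriv ?_
    unfold ko
    ring
  hk := fun s => by
    have h1 := (((exp_hd (-β) s).const_mul β).sub ((exp_hd (-α) s).const_mul α)).div_const (β - α)
    refine h1.congr_deriv ?_
    unfold ko go
    have : β - α ≠ 0 := (sub_pos.2 h).ne'
    field_simp
    ring
  g0 := by simp [go]
  k0 := by
    have : β - α ≠ 0 := (sub_pos.2 h).ne'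
    simp [ko, this]

lemma go_nonneg {α β : ℝ} (h : α < β) {s : ℝ} (hs : 0 ≤ s) : 0 ≤ go α β s := by
  unfold go
  have : Real.exp (-β * s) ≤ Real.exp (-α * s) := Real.exp_le_exp.2 (by nlinarith)
  exact div_nonneg (by linarith) (by linarith)

lemma ker_crit (γ : ℝ) : Ker (2 * γ) (γ ^ 2) (fun s => s * Real.exp (-γ * s)) (fun s => (1 - γ * s) * Real.exp (-γ * s)) where
  hg := fun s => by
    have h1 := (hasDerivAt_id s).mul (exp_hd (-γ) s)
    refine h1.congr_deriv ?_
    simp only [id]
    ring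
  hk := fun s => by
    have h0 : HasDerivAt (fun s : ℝ => 1 - γ * s) (-γ) s := by
      simpa using ((hasDerivAt_id s).const_mul γ).const_sub 1
    have h1 := h0.mul (exp_hd (-γ) s)
    refine h1.congr_deriv ?_
    ring
  g0 := by simp
  k0 := by simp

lemma tend_s_exp {γ : ℝ} (hγ : 0 < γ) : Tendsto (fun s : ℝ => s * Real.exp (-γ * s)) atTop (𝓝 0) := by
  have h := Real.tendsto_pow_mul_exp_neg_atTop_nhds_zero 1
  have h2 : Tendsto (fun s : ℝ => γ * s) atTop atTop := tendsto_id.const_mul_atTop hγ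
  have h3 := (h.comp h2).const_mul (1 / γ)
  rw [mul_zero] at h3
  refine h3.congr (fun s => ?_)
  simp only [Function.comp, pow_one, neg_mul]
  field_simp

theorem kern {c lam : ℝ} (hc : 0 < c) (hl : 0 < lam) :
    ∃ g k : ℝ → ℝ, Ker c lam g k ∧ Dec c k ∧ Tendsto g atTop (𝓝 0) ∧ Tendsto k atTop (𝓝 0) := by
  obtain ⟨γ, hγ⟩ : ∃ γ, c = 2 * γ := ⟨c / 2, by ring⟩
  have hγ0 : 0 < γ := by linarith
  subst hγ
  rcases lt_trichotomy lam (γ ^ 2) with h | h | h
  · -- overdamped
    obtain ⟨μ, hμ⟩ : ∃ μ, μ = √(γ ^ 2 - lam) := ⟨_, rfl⟩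
    have hμ2 : μ ^ 2 = γ ^ 2 - lam := by rw [hμ, Real.sq_sqrt (by linarith)]
    have hμ0 : 0 < μ := by rw [hμ]; exact Real.sqrt_pos.2 (by linarith)
    have hμγ : μ < γ := by nlinarith
    have hK := ker_over (show γ - μ < γ + μ by linarith)
    rw [show γ - μ + (γ + μ) = 2 * γ by ring, show (γ - μ) * (γ + μ) = lam by nlinarith] at hK
    refine ⟨_, _, hK, hK.over (by linarith) hl.le (fun s hs => go_nonneg (by linarith) hs), ?_, ?_⟩
    · have h1 := ((tend_exp' (show 0 < γ - μ by linarith)).sub (tend_exp' (show 0 < γ + μ by linarith))).div_const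
        (γ + μ - (γ - μ))
      rw [sub_zero, zero_div] at h1
      exact h1
    · have h1 := (((tend_exp' (show 0 < γ + μ by linarith)).const_mul (γ + μ)).sub
        ((tend_exp' (show 0 < γ - μ by linarith)).const_mul (γ - μ))).div_const (γ + μ - (γ - μ))
      rw [mul_zero, mul_zero, sub_zero, zero_div] at h1
      exact h1
  · -- critical
    have hK := ker_crit γ
    rw [← h] at hK
    refine ⟨_, _, hK, hK.over (by linarith) hl.le (fun s hs => by positivity), tend_s_exp hγ0, ?_⟩
    have h1 := (tend_exp' hγ0).sub ((tend_s_exp hγ0).const_mul γ)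
    rw [mul_zero, sub_zero] at h1
    refine h1.congr (fun s => ?_)
    ring
  · -- underdamped
    obtain ⟨ω, hω⟩ : ∃ ω, ω = √(lam - γ ^ 2) := ⟨_, rfl⟩
    have hω2 : ω ^ 2 = lam - γ ^ 2 := by rw [hω, Real.sq_sqrt (by linarith)]
    have hω0 : 0 < ω := by rw [hω]; exact Real.sqrt_pos.2 (by linarith)
    have hK := ker_trig (γ := γ) hω0
    rw [show γ ^ 2 + ω ^ 2 = lam by linarith] at hK
    have hD : Dec (2 * γ) (kt γ ω) := by
      rcases le_total (9 * γ ^ 2) (ω ^ 2) with h1 | h1
      · exact caseA hγ0 hω0 h1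
      · exact caseB hγ0 hω0 h1
    refine ⟨_, _, hK, hD, ?_, ?_⟩
    · have h1 := (tend_exp' hγ0).const_mul (1 / ω)
      rw [mul_zero] at h1
      refine squeeze_zero_norm (fun s => ?_) h1
      unfold gt
      rw [Real.norm_eq_abs, abs_mul, abs_of_pos (Real.exp_pos _), abs_div, abs_of_pos hω0]
      have := Real.abs_sin_le_one (ω * s)
      have h2 := Real.exp_pos (-γ * s)
      rw [mul_comm (1 / ω)]
      exact mul_le_mul_of_nonneg_left (div_le_div_of_nonneg_right this hω0.le) h2.le
    · have h1 := (tend_exp' hγ0).const_mul (1 + γ / ω)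
      rw [mul_zero] at h1
      refine squeeze_zero_norm (fun s => ?_) h1
      unfold kt
      rw [Real.norm_eq_abs, abs_mul, abs_of_pos (Real.exp_pos _), mul_comm]
      refine mul_le_mul_of_nonneg_right ?_ (Real.exp_pos _).le
      have h2 := Real.abs_sin_le_one (ω * s)
      have h3 := Real.abs_cos_le_one (ω * s)
      refine (abs_sub _ _).trans ?_
      rw [abs_mul, abs_of_pos (show 0 < γ / ω by positivity)]
      have := mul_le_mul_of_nonneg_left h2 (show 0 ≤ γ / ω by positivity)
      linarith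

end Pool.Agent.X91.OS
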