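import Pool.Agent.X91.OS.UpperAll

/-!
# Time rescaling and the value of the velocity constant
-/

set_option autoImplicit false

open MeasureTheory Set Filter Topology

namespace Pool.Agent.X91.OS

open Pool.Agent.X188.Osc

variable {d : ℕ}

theorem ac_scale {v : ℝ → EuclideanSpace ℝ (Fin d)} {s T : ℝ} (hs : 0 < s) (hT : 0 ≤ T)
    (hv : AbsolutelyContinuousOnInterval v 0 (s * T)) :
    AbsolutelyContinuousOnInterval (fun t => s • v (s * t)) 0 T := by
  rw [absolutelyContinuousOnInterval_iff] at hv ⊢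
  intro ε hε
  obtain ⟨δ, hδ, h⟩ := hv (ε / s) (by positivity)
  refine ⟨δ / s, by positivity, fun E hE hl => ?_⟩
  have hmem : ∀ x, x ∈ uIcc 0 T → s * x ∈ uIcc 0 (s * T) := by
    intro x hx
    rw [uIcc_of_le hT] at hx
    rw [uIcc_of_le (by positivity)]
    exact ⟨mul_nonneg hs.le hx.1, mul_le_mul_of_nonneg_left hx.2 hs.le⟩
  have hioc : ∀ a b x, x ∈ uIoc (s * a) (s * b) → x / s ∈ uIoc a b := by
    intro a b x hx
    rw [mem_uIoc] at hx ⊢
    rcases hx with ⟨h1, h2⟩ | ⟨h1, h2⟩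
    · left; exact ⟨by rw [lt_div_iff₀ hs]; linarith, by rw [div_le_iff₀ hs]; linarith⟩
    · right; exact ⟨by rw [lt_div_iff₀ hs]; linarith, by rw [div_le_iff₀ hs]; linarith⟩
  have hE' : (E.1, fun i => (s * (E.2 i).1, s * (E.2 i).2)) ∈
      AbsolutelyContinuousOnInterval.disjWithin 0 (s * T) := by
    refine ⟨fun i hi => ⟨hmem _ (hE.1 i hi).1, hmem _ (hE.1 i hi).2⟩, fun i hi j hj hij => ?_⟩
    have h1 := hE.2 hi hj hij
    rw [Function.onFun, Set.disjoint_left] at h1 ⊢
    intro x hx hx'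
    exact h1 (hioc _ _ x hx) (hioc _ _ x hx')
  have h1 : ∑ i ∈ Finset.range E.1, dist (s * (E.2 i).1) (s * (E.2 i).2) < δ := by
    have : ∑ i ∈ Finset.range E.1, dist (s * (E.2 i).1) (s * (E.2 i).2)
        = s * ∑ i ∈ Finset.range E.1, dist (E.2 i).1 (E.2 i).2 := by
      rw [Finset.mul_sum]
      refine Finset.sum_congr rfl (fun i _ => ?_)
      rw [Real.dist_eq, Real.dist_eq, ← mul_sub, abs_mul, abs_of_pos hs]
    rw [this]
    have := mul_lt_mul_of_pos_left hl hs
    rwa [mul_div_cancel₀ _ hs.ne'] at this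
  have h2 := h _ hE' h1
  have h3 : ∑ i ∈ Finset.range E.1, dist (s • v (s * (E.2 i).1)) (s • v (s * (E.2 i).2))
      = s * ∑ i ∈ Finset.range E.1, dist (v (s * (E.2 i).1)) (v (s * (E.2 i).2)) := by
    rw [Finset.mul_sum]
    refine Finset.sum_congr rfl (fun i _ => ?_)
    rw [dist_smul₀, Real.norm_eq_abs, abs_of_pos hs]
  rw [h3]
  have := mul_lt_mul_of_pos_left h2 hs
  rwa [mul_div_cancel₀ _ hs.ne'] at this

theorem qmp {s : ℝ} (hs : 0 < s) :
    Measure.QuasiMeasurePreserving (fun t : ℝ => s * t) volume volume := by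
  refine ⟨measurable_const_mul s, ?_⟩
  rw [Real.map_volume_mul_left hs.ne']
  exact Measure.smul_absolutelyContinuous

theorem scale {A : Matrix (Fin d) (Fin d) ℝ} {c s : ℝ}
    {f u v : ℝ → EuclideanSpace ℝ (Fin d)} (hs : 0 < s) (h : IsSolution A c f u v) :
    IsSolution (s ^ 2 • A) (s * c) (fun t => s ^ 2 • f (s * t)) (fun t => u (s * t))
      (fun t => s • v (s * t)) := by
  have hm : MapsTo (fun t : ℝ => s * t) (Ici 0) (Ici 0) := fun t ht => mul_nonneg hs.le ht
  have hid : ∀ t : ℝ, HasDerivAt (fun t : ℝ => s * t) s t := fun t => by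
    simpa using (hasDerivAt_id t).const_mul s
  refine ⟨fun t ht => ?_, ?_, fun T hT => ac_scale hs hT (h.absCont _ (by positivity)), ?_⟩
  · exact (h.hasDeriv (s * t) (by positivity)).scomp t (hid t).hasDerivWithinAt hm
  · exact (h.cont.comp (by fun_prop) hm).const_smul s
  · filter_upwards [(qmp hs).ae h.eqn] with t ht ht0
    have h1 := ht (by positivity)
    have h2 := (HasDerivAt.scomp t h1 (hid t)).const_smul s
    refine h2.congr_deriv ?_
    rw [map_smul, LinearMap.smul_apply]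
    module

/-- The lower bound at every fixed damping constant. -/
theorem lower_fixed (hd : 1 ≤ d) {c₀ : ℝ} (hc₀ : 0 < c₀) {δ : ℝ} (hδ : 0 < δ) :
    ∃ A : Matrix (Fin d) (Fin d) ℝ, A.PosDef ∧ ∀ K, IsAdmissible A c₀ K →
      (1 + Real.sqrt d - δ) / c₀ ≤ K := by
  obtain ⟨lam, hlam, h⟩ := lower_bound hd hδ
  obtain ⟨c, ⟨f, u, v, hfm, hf1, hsol, hN⟩, hc⟩ := (h.and (eventually_gt_atTop (0:ℝ))).exists
  obtain ⟨s, hs⟩ : ∃ s, s = c₀ / c := ⟨_, rfl⟩
  have hs0 : 0 < s := by rw [hs]; positivity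
  have hsc : s * c = c₀ := by rw [hs]; field_simp
  refine ⟨s ^ 2 • Matrix.diagonal lam, (Matrix.PosDef.diagonal hlam).smul (by positivity), fun K hK => ?_⟩
  have hsol' := scale hs0 hsol
  rw [hsc] at hsol'
  have hfm' : Measurable (fun t => s ^ 2 • f (s * t)) := by
    fun_prop
  have hf1' : ∀ t, ‖s ^ 2 • f (s * t)‖ ≤ s ^ 2 := by
    intro t
    rw [norm_smul, Real.norm_eq_abs, abs_of_pos (by positivity : 0 < s ^ 2)]
    exact mul_le_of_le_one_right (by positivity) (hf1 _)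
  have hB : EssBddBy (fun t => s ^ 2 • f (s * t)) (s ^ 2) :=
    ⟨by positivity, 0, Eventually.of_forall (fun t _ => hf1' t)⟩
  have hess : essLimsup (fun t => s ^ 2 • f (s * t)) ≤ s ^ 2 := csInf_le (bddBelow_ess _) hB
  have hloc : LocallyIntegrableOn (fun t => s ^ 2 • f (s * t)) (Set.Ici 0) := by
    have h1 : LocallyIntegrable (fun _ : ℝ => (s ^ 2 : ℝ)) volume := locallyIntegrable_const _
    refine (h1.mono hfm'.aestronglyMeasurable (Eventually.of_forall (fun t => ?_))).locallyIntegrableOn _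
    rw [Real.norm_eq_abs, abs_of_pos (by positivity : 0 < s ^ 2)]
    exact hf1' t
  have hkey : s * ((1 + Real.sqrt d - δ) / c) ≤ K * s ^ 2 := by
    refine le_of_forall_pos_le_add (fun ε hε => ?_)
    obtain ⟨N, hN'⟩ := eventually_atTop.1 (hK.2 _ _ _ hloc ⟨_, hB⟩ hsol' ε hε)
    obtain ⟨t, ht, hv⟩ := hN (s * N)
    have h2 := hN' (t / s) (by rw [le_div_iff₀ hs0]; linarith)
    have h3 : K * essLimsup (fun t => s ^ 2 • f (s * t)) ≤ K * s ^ 2 :=
      mul_le_mul_of_nonneg_left hess hK.1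
    have h4 : ‖s • v (s * (t / s))‖ = s * ‖v t‖ := by
      rw [mul_div_cancel₀ _ hs0.ne', norm_smul, Real.norm_eq_abs, abs_of_pos hs0]
    rw [h4] at h2
    have h5 := mul_le_mul_of_nonneg_left hv hs0.le
    linarith
  have h6 : s * ((1 + Real.sqrt d - δ) / c) = (1 + Real.sqrt d - δ) / c₀ * s ^ 2 := by
    rw [← hsc]; field_simp
  rw [h6] at hkey
  exact le_of_mul_le_mul_right hkey (by positivity)

/-- `K(A, c)` is the smallest admissible constant. -/
theorem isLeast_bestConst {A : Matrix (Fin d) (Fin d) ℝ} (hA : A.PosDef) {c : ℝ} (hc : 0 < c) :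
    IsLeast {K | IsAdmissible A c K} (bestConst A c) := by
  refine ⟨⟨bestConst_nonneg A c, fun f u v hf hB hsol ε hε => ?_⟩,
    fun K hK => csInf_le (bddBelow_adm A c) hK⟩
  have he : 0 ≤ essLimsup f := Real.sInf_nonneg (fun _ h => h.1)
  obtain ⟨K, hK, hlt⟩ := exists_lt_of_csInf_lt (s := {K | IsAdmissible A c K})
    ⟨_, admissible_all hA hc⟩
    (show bestConst A c < bestConst A c + ε / (2 * (essLimsup f + 1)) by
      have : 0 < ε / (2 * (essLimsup f + 1)) := by positivity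
      linarith)
  filter_upwards [hK.2 f u v hf hB hsol (ε / 2) (by positivity)] with t ht
  have h1 : K * essLimsup f ≤ (bestConst A c + ε / (2 * (essLimsup f + 1))) * essLimsup f :=
    mul_le_mul_of_nonneg_right hlt.le he
  have h2 : ε / (2 * (essLimsup f + 1)) * essLimsup f ≤ ε / 2 := by
    rw [div_mul_eq_mul_div, div_le_iff₀ (by positivity)]
    nlinarith
  nlinarith

/-- `M_d = 1 + √d`, at every fixed damping constant. -/
theorem velocity_constant (hd : 1 ≤ d) {c : ℝ} (hc : 0 < c) :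
    IsLUB {x : ℝ | ∃ A : Matrix (Fin d) (Fin d) ℝ, A.PosDef ∧ x = c * bestConst A c}
      (1 + Real.sqrt d) := by
  constructor
  · rintro x ⟨A, hA, rfl⟩
    have h1 : bestConst A c ≤ (1 + Real.sqrt d) / c :=
      csInf_le (bddBelow_adm A c) (admissible_all hA hc)
    have h2 := mul_le_mul_of_nonneg_left h1 hc.le
    rwa [mul_div_cancel₀ _ hc.ne'] at h2
  · intro z hz
    refine le_of_forall_pos_le_add (fun δ hδ => ?_)
    obtain ⟨A, hA, h⟩ := lower_fixed hd hc hδ
    have h2 : (1 + Real.sqrt d - δ) / c ≤ bestConst A c :=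
      le_csInf ⟨_, admissible_all hA hc⟩ h
    rw [div_le_iff₀ hc] at h2
    have h3 := hz ⟨A, hA, rfl⟩
    linarith

end Pool.Agent.X91.OS
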