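import Pool.Agent.X91.OS.KernC
import Pool.Agent.X188.Osc.Const

/-!
# The upper bound `(1 + √d)/c` for all matrices and all damping constants
-/

set_option autoImplicit false

open MeasureTheory Set Filter Topology
open scoped RealInnerProductSpace

namespace Pool.Agent.X91.OS

open Pool.Agent.X188.Osc

variable {d : ℕ}

/-- the early part of the forcing is forgotten -/
lemma forget {k F : ℝ → ℝ} (hk : Tendsto k atTop (𝓝 0)) {T : ℝ} (hT : 0 ≤ T)
    (hF : IntervalIntegrable F volume 0 T) :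
    Tendsto (fun t => ∫ s in (0:ℝ)..T, k (t - s) * F s) atTop (𝓝 0) := by
  rw [Metric.tendsto_atTop]
  intro ε hε
  obtain ⟨I, hI⟩ : ∃ I, I = ∫ s in (0:ℝ)..T, |F s| := ⟨_, rfl⟩
  have hI0 : 0 ≤ I := by rw [hI]; exact intervalIntegral.integral_nonneg hT (fun _ _ => abs_nonneg _)
  rw [Metric.tendsto_atTop] at hk
  obtain ⟨N, hN⟩ := hk (ε / (I + 1)) (by positivity)
  refine ⟨N + T, fun t ht => ?_⟩
  rw [dist_zero_right, Real.norm_eq_abs]
  have h1 : |∫ s in (0:ℝ)..T, k (t - s) * F s| ≤ ∫ s in (0:ℝ)..T, ε / (I + 1) * |F s| := by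
    have := intervalIntegral.norm_integral_le_of_norm_le (μ := volume) (f := fun s => k (t - s) * F s)
      (g := fun s => ε / (I + 1) * |F s|) hT (Eventually.of_forall fun s hs => by
        have h2 := hN (t - s) (by linarith [hs.2])
        rw [dist_zero_right, Real.norm_eq_abs] at h2
        rw [norm_mul, Real.norm_eq_abs, Real.norm_eq_abs]
        exact mul_le_mul_of_nonneg_right h2.le (abs_nonneg _)) (hF.abs.const_mul _)
    exact this
  rw [intervalIntegral.integral_const_mul, ← hI] at h1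
  refine lt_of_le_of_lt h1 ?_
  rw [div_mul_eq_mul_div, div_lt_iff₀ (by positivity)]
  nlinarith

lemma exp_conv {c : ℝ} (hc : 0 < c) {T t : ℝ} :
    ∫ s in T..t, Real.exp (-(c * (t - s))) = (1 - Real.exp (-(c * (t - T)))) / c := by
  rw [intervalIntegral.integral_comp_sub_left (fun x => Real.exp (-(c * x))) t, sub_self, exp_int c hc]

/-- representation of one coordinate -/
theorem coord {lam c : ℝ} {g k : ℝ → ℝ} (K : Ker c lam g k) {F U W : ℝ → ℝ}
    (hF : ∀ T, 0 ≤ T → IntervalIntegrable F volume 0 T)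
    (hU : ∀ t, 0 ≤ t → HasDerivWithinAt U (W t) (Ici 0) t) (hWc : ContinuousOn W (Ici 0))
    (hWac : ∀ T, 0 ≤ T → AbsolutelyContinuousOnInterval W 0 T)
    (hW : ∀ᵐ t, 0 < t → HasDerivAt W (F t - c * W t - lam * U t) t) {t : ℝ} (ht : 0 ≤ t) :
    W t = k t * W 0 - lam * (g t * U 0) + ∫ s in (0:ℝ)..t, k (t - s) * F s := by
  have hUc : ContinuousOn U (Ici 0) := fun s hs => (hU s hs).continuousWithinAt
  refine K.duh ht (hF t ht) (hWc.mono Icc_subset_Ici_self) (fun s hs => ?_) (fun s hs => ?_)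
  · have h1 : ∫ r in (0:ℝ)..s, W r = U s - U 0 := by
      apply intervalIntegral.integral_eq_sub_of_hasDerivAt_of_le hs.1 (hUc.mono Icc_subset_Ici_self)
      · intro x hx
        exact (hU x hx.1.le).hasDerivAt (Ici_mem_nhds hx.1)
      · apply ContinuousOn.intervalIntegrable
        rw [uIcc_of_le hs.1]
        exact hWc.mono Icc_subset_Ici_self
    rw [h1]; ring
  · have h1 := (hWac s hs.1).integral_deriv_eq_sub
    have h2 : ∫ r in (0:ℝ)..s, deriv W r = ∫ r in (0:ℝ)..s, (F r - c * W r - lam * U r) := by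
      apply intervalIntegral.integral_congr_ae
      filter_upwards [hW] with r hr hr'
      rw [uIoc_of_le hs.1] at hr'
      exact (hr hr'.1).deriv
    rw [← h2, h1]; ring

theorem upper_all {A : Matrix (Fin d) (Fin d) ℝ} (hA : A.PosDef) {c : ℝ} (hc : 0 < c)
    {f u v : ℝ → EuclideanSpace ℝ (Fin d)} (hfi : LocallyIntegrableOn f (Ici 0))
    (hs : IsSolution A c f u v) {B T₀ : ℝ} (hB : 0 ≤ B)
    (hT₀ : 0 ≤ T₀) (hf : ∀ᵐ t, T₀ < t → ‖f t‖ ≤ B) {ε : ℝ} (hε : 0 < ε) :
    ∀ᶠ t in atTop, ‖v t‖ ≤ (1 + Real.sqrt d) / c * B + ε := by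
  set b := hA.isHermitian.eigenvectorBasis with hb
  set lam := hA.isHermitian.eigenvalues with hlam
  have hlp : ∀ i, 0 < lam i := hA.eigenvalues_pos
  have hkern : ∀ i, ∃ g k : ℝ → ℝ, Ker c (lam i) g k ∧ Dec c k ∧ Tendsto g atTop (𝓝 0) ∧ Tendsto k atTop (𝓝 0) :=
    fun i => kern hc (hlp i)
  choose g k hK hD hg0 hk0 using hkern
  choose e r hec hrc hkr hee hrr using hD
  have hfint : ∀ T, 0 ≤ T → IntervalIntegrable f volume 0 T := by
    intro T hT
    rw [intervalIntegrable_iff_integrableOn_Icc_of_le hT]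
    exact hfi.integrableOn_compact_subset Icc_subset_Ici_self isCompact_Icc
  have hFint : ∀ i T, 0 ≤ T → IntervalIntegrable (fun s => ⟪b i, f s⟫) volume 0 T := by
    intro i T hT
    exact ⟨(innerSL ℝ (b i)).integrable_comp (hfint T hT).1, (innerSL ℝ (b i)).integrable_comp (hfint T hT).2⟩
  have hrep : ∀ i t, 0 ≤ t → ⟪b i, v t⟫ = k i t * ⟪b i, v 0⟫ - lam i * (g i t * ⟪b i, u 0⟫)
      + ∫ s in (0:ℝ)..t, k i (t - s) * ⟪b i, f s⟫ := by
    intro i t ht
    refine coord (hK i) (F := fun s => ⟪b i, f s⟫) (U := fun s => ⟪b i, u s⟫) (W := fun s => ⟪b i, v s⟫)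
      (hFint i) (fun t ht => hasDerivWithinAt_inner_const (hs.hasDeriv t ht) (b i)) ?_
      (fun T hT => ac_inner (hs.absCont T hT) (b i)) ?_ ht
    · have := hs.cont
      fun_prop
    · filter_upwards [hs.eqn] with t ht h0
      refine (hasDerivAt_inner_const (ht h0) (b i)).congr_deriv ?_
      rw [inner_sub_right, inner_sub_right, real_inner_smul_right, inner_eigen]
  -- the vanishing part
  set H : Fin d → ℝ → ℝ := fun i t => k i t * ⟪b i, v 0⟫ - lam i * (g i t * ⟪b i, u 0⟫)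
      + ∫ s in (0:ℝ)..T₀, k i (t - s) * ⟪b i, f s⟫ with hH
  have hH0 : ∀ i, Tendsto (H i) atTop (𝓝 0) := by
    intro i
    have h1 := ((hk0 i).mul_const ⟪b i, v 0⟫).sub (((hg0 i).mul_const ⟪b i, u 0⟫).const_mul (lam i))
    have h2 := h1.add (forget (hk0 i) hT₀ (hFint i T₀ hT₀))
    simpa using h2
  have hHs : Tendsto (fun t => ∑ i, |H i t|) atTop (𝓝 0) := by
    have := tendsto_finsetSum Finset.univ (fun i _ => (hH0 i).abs)
    simpa using this
  have hHe := hHs.eventually_lt_const hε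
  filter_upwards [hHe, eventually_ge_atTop T₀] with t hHt htT
  have ht0 : 0 ≤ t := hT₀.trans htT
  have hmem : (0:ℝ) ≤ T₀ := hT₀
  -- integrability on the pieces
  have hF1 : ∀ i, IntervalIntegrable (fun s => ⟪b i, f s⟫) volume T₀ t := fun i =>
    ((hFint i t ht0).mono_set (by
      rw [uIcc_of_le htT, uIcc_of_le ht0]; exact Icc_subset_Icc_left hT₀))
  have hcs : ∀ φ : ℝ → ℝ, Continuous φ → Continuous (fun s => φ (t - s)) := fun φ hφ =>
    hφ.comp (continuous_const.sub continuous_id)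
  have hsplit : ∀ i, ⟪b i, v t⟫ = H i t + (∫ s in T₀..t, e i (t - s) * ⟪b i, f s⟫)
      + ∫ s in T₀..t, r i (t - s) * ⟪b i, f s⟫ := by
    intro i
    have hkc := (hK i).kc
    have i1 : IntervalIntegrable (fun s => k i (t - s) * ⟪b i, f s⟫) volume 0 T₀ :=
      (hFint i T₀ hT₀).continuousOn_mul (hcs _ hkc).continuousOn
    have i2 : IntervalIntegrable (fun s => k i (t - s) * ⟪b i, f s⟫) volume T₀ t :=
      (hF1 i).continuousOn_mul (hcs _ hkc).continuousOn
    have i3 : IntervalIntegrable (fun s => e i (t - s) * ⟪b i, f s⟫) volume T₀ t :=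
      (hF1 i).continuousOn_mul (hcs _ (hec i)).continuousOn
    have i4 : IntervalIntegrable (fun s => r i (t - s) * ⟪b i, f s⟫) volume T₀ t :=
      (hF1 i).continuousOn_mul (hcs _ (hrc i)).continuousOn
    rw [hrep i t ht0, ← intervalIntegral.integral_add_adjacent_intervals i1 i2, add_assoc (H i t),
      ← intervalIntegral.integral_add i3 i4]
    have : ∫ s in T₀..t, k i (t - s) * ⟪b i, f s⟫ =
        ∫ s in T₀..t, (e i (t - s) * ⟪b i, f s⟫ + r i (t - s) * ⟪b i, f s⟫) := by
      apply intervalIntegral.integral_congr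
      intro s hs'
      rw [uIcc_of_le htT] at hs'
      show k i (t - s) * ⟪b i, f s⟫ = _
      rw [hkr i (t - s) (by linarith [hs'.2])]
      ring
    rw [this, hH]
    ring
  -- bounds
  have hFb : ∀ᵐ s, s ∈ Ioc T₀ t → ‖f s‖ ≤ B := by
    filter_upwards [hf] with s hs' hm
    exact hs' hm.1
  have hr : ∀ i, |∫ s in T₀..t, r i (t - s) * ⟪b i, f s⟫| ≤ B / c := by
    intro i
    have h1 : |∫ s in T₀..t, r i (t - s) * ⟪b i, f s⟫| ≤ ∫ s in T₀..t, B * |r i (t - s)| := by
      refine intervalIntegral.norm_integral_le_of_norm_le (μ := volume) (f := fun s => r i (t - s) * ⟪b i, f s⟫)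
        (g := fun s => B * |r i (t - s)|) htT ?_
        ((continuous_const.mul (hcs _ (hrc i)).abs).intervalIntegrable _ _)
      filter_upwards [hFb] with s hs' hm
      rw [norm_mul, Real.norm_eq_abs, Real.norm_eq_abs, mul_comm]
      refine mul_le_mul_of_nonneg_right ?_ (abs_nonneg _)
      refine (abs_real_inner_le_norm _ _).trans ?_
      rw [b.orthonormal.1 i, one_mul]
      exact hs' hm
    have h2 : ∫ s in T₀..t, B * |r i (t - s)| = B * ∫ s in (0:ℝ)..(t - T₀), |r i s| := by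
      rw [intervalIntegral.integral_const_mul, intervalIntegral.integral_comp_sub_left (fun x => |r i x|) t, sub_self]
    rw [h2] at h1
    have h3 := mul_le_mul_of_nonneg_left (hrr i (t - T₀) (by linarith)) hB
    have h4 : B * (1 / c) = B / c := by ring
    linarith
  set n := ‖v t‖ with hn
  have hn0 : 0 ≤ n := norm_nonneg _
  have ha : ∀ i, |⟪b i, v t⟫| ≤ n := by
    intro i
    refine (abs_real_inner_le_norm _ _).trans ?_
    rw [b.orthonormal.1 i, one_mul]
  have hsum : ∑ i, ⟪b i, v t⟫ ^ 2 = n ^ 2 := by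
    have := b.sum_sq_norm_inner_right (v t)
    simpa [Real.norm_eq_abs, sq_abs] using this
  have he : |∑ i, ⟪b i, v t⟫ * ∫ s in T₀..t, e i (t - s) * ⟪b i, f s⟫| ≤ n * (B / c) := by
    have h0 : ∑ i, ⟪b i, v t⟫ * (∫ s in T₀..t, e i (t - s) * ⟪b i, f s⟫) =
        ∫ s in T₀..t, ∑ i, ⟪b i, v t⟫ * (e i (t - s) * ⟪b i, f s⟫) := by
      rw [intervalIntegral.integral_finset_sum]
      · refine Finset.sum_congr rfl (fun i _ => ?_)
        rw [intervalIntegral.integral_const_mul]
      · intro i _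
        exact ((hF1 i).continuousOn_mul (hcs _ (hec i)).continuousOn).const_mul _
    rw [h0]
    have h1 : |∫ s in T₀..t, ∑ i, ⟪b i, v t⟫ * (e i (t - s) * ⟪b i, f s⟫)| ≤
        ∫ s in T₀..t, n * B * Real.exp (-(c * (t - s))) := by
      refine intervalIntegral.norm_integral_le_of_norm_le (μ := volume)
        (f := fun s => ∑ i, ⟪b i, v t⟫ * (e i (t - s) * ⟪b i, f s⟫))
        (g := fun s => n * B * Real.exp (-(c * (t - s)))) htT ?_
        (Continuous.intervalIntegrable (by fun_prop) _ _)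
      filter_upwards [hFb] with s hs' hm
      have hts : 0 ≤ t - s := by linarith [hm.2]
      rw [Real.norm_eq_abs]
      have h2 : |∑ i, ⟪b i, v t⟫ * (e i (t - s) * ⟪b i, f s⟫)| ≤
          ∑ i, Real.exp (-(c * (t - s))) * (|⟪b i, v t⟫| * |⟪b i, f s⟫|) := by
        refine (Finset.abs_sum_le_sum_abs _ _).trans (Finset.sum_le_sum fun i _ => ?_)
        rw [abs_mul, abs_mul]
        have := mul_le_mul_of_nonneg_right (hee i (t - s) hts)
          (mul_nonneg (abs_nonneg ⟪b i, v t⟫) (abs_nonneg ⟪b i, f s⟫))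
        linarith
      have h3 : ∑ i, |⟪b i, v t⟫| * |⟪b i, f s⟫| ≤ n * B := by
        have hcs' := Finset.sum_mul_sq_le_sq_mul_sq Finset.univ (fun i => |⟪b i, v t⟫|) (fun i => |⟪b i, f s⟫|)
        simp only [sq_abs] at hcs'
        have hsf : ∑ i, ⟪b i, f s⟫ ^ 2 = ‖f s‖ ^ 2 := by
          have := b.sum_sq_norm_inner_right (f s)
          simpa [Real.norm_eq_abs, sq_abs] using this
        rw [hsum, hsf, ← mul_pow] at hcs'
        have h4 := abs_le_of_sq_le_sq hcs' (by positivity)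
        have h5 : n * ‖f s‖ ≤ n * B := mul_le_mul_of_nonneg_left (hs' hm) hn0
        exact ((le_abs_self _).trans (by simpa using h4)).trans h5
      rw [← Finset.mul_sum] at h2
      have := mul_le_mul_of_nonneg_left h3 (Real.exp_pos (-(c * (t - s)))).le
      linarith
    rw [intervalIntegral.integral_const_mul, exp_conv hc] at h1
    refine h1.trans ?_
    have h6 : (1 - Real.exp (-(c * (t - T₀)))) / c ≤ 1 / c := by
      apply div_le_div_of_nonneg_right _ hc.le
      linarith [Real.exp_pos (-(c * (t - T₀)))]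
    have h7 := mul_le_mul_of_nonneg_left h6 (mul_nonneg hn0 hB)
    have h8 : n * B * (1 / c) = n * (B / c) := by ring
    linarith
  have hsa : ∑ i, |⟪b i, v t⟫| ≤ Real.sqrt d * n := by
    have hcs' := Finset.sum_mul_sq_le_sq_mul_sq Finset.univ (fun _ : Fin d => (1:ℝ)) (fun i => |⟪b i, v t⟫|)
    simp only [sq_abs, one_mul, one_pow, Finset.sum_const, Finset.card_univ, Fintype.card_fin, nsmul_eq_mul,
      mul_one] at hcs'
    rw [hsum] at hcs'
    have h1 : (d:ℝ) * n ^ 2 = (Real.sqrt d * n) ^ 2 := by rw [mul_pow, Real.sq_sqrt (Nat.cast_nonneg d)]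
    rw [h1] at hcs'
    exact (le_abs_self _).trans (abs_le_of_sq_le_sq hcs' (by positivity))
  -- conclusion
  have hfin : n ^ 2 ≤ n * (∑ i, |H i t|) + n * (B / c) + Real.sqrt d * n * (B / c) := by
    have h0 : n ^ 2 = (∑ i, ⟪b i, v t⟫ * H i t) + (∑ i, ⟪b i, v t⟫ * ∫ s in T₀..t, e i (t - s) * ⟪b i, f s⟫)
        + ∑ i, ⟪b i, v t⟫ * ∫ s in T₀..t, r i (t - s) * ⟪b i, f s⟫ := by
      rw [← hsum, ← Finset.sum_add_distrib, ← Finset.sum_add_distrib]
      refine Finset.sum_congr rfl (fun i _ => ?_)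
      nth_rewrite 1 [sq]
      nth_rewrite 2 [hsplit i]
      ring
    have h1 : ∑ i, ⟪b i, v t⟫ * H i t ≤ n * ∑ i, |H i t| := by
      rw [Finset.mul_sum]
      refine Finset.sum_le_sum fun i _ => ?_
      refine (le_abs_self _).trans ?_
      rw [abs_mul]
      exact mul_le_mul_of_nonneg_right (ha i) (abs_nonneg _)
    have h2 : ∑ i, ⟪b i, v t⟫ * (∫ s in T₀..t, r i (t - s) * ⟪b i, f s⟫) ≤ Real.sqrt d * n * (B / c) := by
      have h3 : ∑ i, ⟪b i, v t⟫ * (∫ s in T₀..t, r i (t - s) * ⟪b i, f s⟫) ≤ ∑ i, |⟪b i, v t⟫| * (B / c) := by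
        refine Finset.sum_le_sum fun i _ => ?_
        refine (le_abs_self _).trans ?_
        rw [abs_mul]
        exact mul_le_mul_of_nonneg_left (hr i) (abs_nonneg _)
      rw [← Finset.sum_mul] at h3
      exact h3.trans (mul_le_mul_of_nonneg_right hsa (by positivity))
    have h4 := (le_abs_self _).trans he
    linarith
  rcases eq_or_lt_of_le hn0 with h | h
  · rw [← h]
    positivity
  · have h1 : n ≤ (∑ i, |H i t|) + B / c + Real.sqrt d * (B / c) := by
      have : n * n ≤ n * ((∑ i, |H i t|) + B / c + Real.sqrt d * (B / c)) := by nlinarith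
      exact le_of_mul_le_mul_left this h
    have h2 : (1 + Real.sqrt d) / c * B = B / c + Real.sqrt d * (B / c) := by ring
    rw [h2]
    linarith

theorem admissible_all {A : Matrix (Fin d) (Fin d) ℝ} (hA : A.PosDef) {c : ℝ} (hc : 0 < c) :
    IsAdmissible A c ((1 + Real.sqrt d) / c) :=
  admissible_of (by positivity) (fun _ _ _ hfi hs _ _ hB hT hf _ hε =>
    upper_all hA hc hfi hs hB hT hf hε)

end Pool.Agent.X91.OS
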